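import Pool.Agent.H46.Lib.R_seed8.H437R2.Man.MWWeak
import Pool.Agent.H46.Lib.R_seed8.Y700.VC

/-! The Mordell-Weil theorem for an arbitrary Weierstrass equation over a number field. -/

set_option autoImplicit false

namespace Pool.Agent.Q286.EQ

open WeierstrassCurve Polynomial

theorem fg_of_inj {A B : Type} [AddCommGroup A] [AddCommGroup B] (f : A →+ B)
    (hf : Function.Injective f) (hB : AddGroup.FG B) : AddGroup.FG A := by
  rw [← Module.Finite.iff_addGroup_fg] at hB ⊢
  have : IsNoetherian ℤ B := inferInstance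
  exact Module.Finite.of_injective f.toIntLinearMap hf

/-- **Mordell-Weil** -/
theorem mordell_weil (K : Type) [Field K] [NumberField K] [DecidableEq K] (W : WeierstrassCurve K)
    (hΔ : W.Δ ≠ 0) : AddGroup.FG W.toAffine.Point := by
  classical
  let P : Cubic K := ⟨1, W.b₂ / 4, W.b₄ / 2, W.b₆ / 4⟩
  let L : Type := P.toPoly.SplittingField
  have : NumberField L := NumberField.of_module_finite K L
  have ha : P.a ≠ 0 := one_ne_zero
  have hsp : Splits (P.toPoly.map (algebraMap K L)) := SplittingField.splits P.toPoly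
  obtain ⟨x, y, z, h3⟩ := (Cubic.splits_iff_roots_eq_three ha).1 hsp
  have hdisc : P.discr ≠ 0 := by
    have h4 : (4 : K) * W.b₈ = W.b₂ * W.b₆ - W.b₄ ^ 2 := W.b_relation
    have h : 16 * P.discr = W.Δ := by
      simp only [Cubic.discr, P, WeierstrassCurve.Δ]
      linear_combination (W.b₂ ^ 2 / 4) * h4
    intro h0
    rw [h0, mul_zero] at h
    exact hΔ h.symm
  obtain ⟨hxy, hxz, hyz⟩ := (Cubic.discr_ne_zero_iff_roots_ne ha h3).1 hdisc
  have hb := Cubic.b_eq_three_roots ha h3
  have hc := Cubic.c_eq_three_roots ha h3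
  have hd := Cubic.d_eq_three_roots ha h3
  simp only [P, map_one, one_mul, map_div₀, map_ofNat] at hb hc hd
  have hK : AddGroup.FG (Pool.Agent.H437R2.Man.MW.crv (-x) (-y) (-z)).toAffine.Point :=
    Pool.Agent.H437R2.Man.MW.pt_fg (fun h => hxy (neg_injective h)) (fun h => hxz (neg_injective h))
      (fun h => hyz (neg_injective h))
  have hvr : Pool.Agent.Y700.VR (W.map (algebraMap K L))
      (Pool.Agent.H437R2.Man.MW.crv (-x) (-y) (-z)) 1 0 (-(algebraMap K L W.a₁) / 2)
      (-(algebraMap K L W.a₃) / 2) := by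
    have e1 : algebraMap K L W.b₂ = (algebraMap K L W.a₁) ^ 2 + 4 * algebraMap K L W.a₂ := by
      rw [WeierstrassCurve.b₂, map_add, map_mul, map_pow, map_ofNat]
    have e2 : algebraMap K L W.b₄ = 2 * (algebraMap K L W.a₄) + algebraMap K L W.a₁ *
        algebraMap K L W.a₃ := by
      rw [WeierstrassCurve.b₄, map_add, map_mul, map_mul, map_ofNat]
    have e3 : algebraMap K L W.b₆ = (algebraMap K L W.a₃) ^ 2 + 4 * algebraMap K L W.a₆ := by
      rw [WeierstrassCurve.b₆, map_add, map_mul, map_pow, map_ofNat]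
    rw [e1] at hb
    rw [e2] at hc
    rw [e3] at hd
    refine ⟨one_ne_zero, ?_, ?_, ?_, ?_, ?_⟩
    · change (1 : L) * 0 = algebraMap K L W.a₁ + 2 * _
      ring
    · change (1 : L) ^ 2 * (-x + -y + -z) = algebraMap K L W.a₂ - _ * algebraMap K L W.a₁ + _ - _
      linear_combination -hb
    · change (1 : L) ^ 3 * 0 = algebraMap K L W.a₃ + _ * algebraMap K L W.a₁ + _
      ring
    · change (1 : L) ^ 4 * (-x * -y + -x * -z + -y * -z) = algebraMap K L W.a₄ -
        _ * algebraMap K L W.a₃ + 2 * _ * algebraMap K L W.a₂ - _ * algebraMap K L W.a₁ + _ - _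
      linear_combination -hc
    · change (1 : L) ^ 6 * (-x * -y * -z) = algebraMap K L W.a₆ + _ * algebraMap K L W.a₄ +
        _ ^ 2 * algebraMap K L W.a₂ + _ - _ * algebraMap K L W.a₃ - _ - _ * algebraMap K L W.a₁
      linear_combination -hd
  have hΔL : (Pool.Agent.H437R2.Man.MW.crv (-x) (-y) (-z)).Δ ≠ 0 := by
    rw [Pool.Agent.H437R2.Man.MW.crv_Δ]
    have h1 := sub_ne_zero.2 hxy
    have h2 := sub_ne_zero.2 hxz
    have h3 := sub_ne_zero.2 hyz
    have h4 : (16 : L) * ((x - y) * (x - z) * (y - z)) ^ 2 ≠ 0 :=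
      mul_ne_zero (by norm_num) (pow_ne_zero _ (mul_ne_zero (mul_ne_zero h1 h2) h3))
    intro h0
    apply h4
    linear_combination h0
  have hK' : AddGroup.FG (W.map (algebraMap K L)).toAffine.Point :=
    fg_of_inj (hvr.equiv hΔL).symm.toAddMonoidHom (hvr.equiv hΔL).symm.injective hK
  have hinj := WeierstrassCurve.Affine.Point.map_injective (W' := W.toAffine)
    (Algebra.ofId K L)
  have hK'' : AddGroup.FG (W.baseChange L).toAffine.Point := hK'
  have heq : W.baseChange K = W := by
    apply WeierstrassCurve.ext <;> rfl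
  have h0 : AddGroup.FG (W.baseChange K).toAffine.Point :=
    fg_of_inj _ hinj hK''
  rwa [heq] at h0

end Pool.Agent.Q286.EQ
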